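import Mathlib

set_option maxHeartbeats 4000000
set_option linter.unusedSectionVars false

/-!
# The Max-start and Min-start values of the toppling game differ on every non-tree

Let `M = ∑ (deg v - 1) = 2|E| - |V|`. A stable configuration has at most `M` tokens.

* If it is Max's turn and there are fewer than `M` tokens, then Max can place a token keeping the
  configuration stable, so Max never has to end the game.
* If Min is to move with `M - 1` tokens and no placement ended the game, then for every vertex `v`
  the configuration `(deg - 1) - 1_w + 1_v` would stabilise to `deg - 1`, so all differences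
  `1_v - 1_w` would be Laplacians of integer functions; looking at the set where such a function
  is maximal shows that every edge is a bridge, so the graph is a tree.

Hence in optimal play Min makes the last move: the Max-start value is even and the Min-start
value is odd.
-/

namespace Pool.Agent.Results.MP_424b19_co.TopplingParity

open Finset

variable {V : Type} [Fintype V] [DecidableEq V] (G : SimpleGraph V) [DecidableRel G.Adj]

/-- A vertex is ready if it holds at least `deg v` tokens. -/
def Ready (c : V → ℕ) (v : V) : Prop := G.degree v ≤ c v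

/-- The configuration obtained by toppling `v`: one token moves to each neighbour. -/
def topple (c : V → ℕ) (v : V) : V → ℕ := fun x =>
  if x = v then c v - G.degree v else if G.Adj v x then c x + 1 else c x

/-- One legal toppling step. -/
def Step (c c' : V → ℕ) : Prop := ∃ v, Ready G c v ∧ c' = topple G c v

/-- No vertex is ready. -/
def Stable (c : V → ℕ) : Prop := ∀ v, ¬ Ready G c v

/-- The toppling phase starting at `c` stops, at the configuration `s`. -/
def StopsAt (c s : V → ℕ) : Prop := Relation.ReflTransGen (Step G) c s ∧ Stable G s

/-- Place one token on `v`. -/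
def place (c : V → ℕ) (v : V) : V → ℕ := fun x => if x = v then c x + 1 else c x

/-- `Lasts G k p c`: with the player `p` (`true` is Max, `false` is Min) to move in the
configuration `c`, optimal play lasts at least `k` more turns. A turn always takes place; it is
the last one if the toppling phase that follows the placement never stops. -/
def Lasts : ℕ → Bool → (V → ℕ) → Prop
  | 0, _, _ => True
  | k + 1, true, c => ∃ v, k = 0 ∨ ∃ s, StopsAt G (place c v) s ∧ Lasts k false s
  | k + 1, false, c => ∀ v, k = 0 ∨ ∃ s, StopsAt G (place c v) s ∧ Lasts k true s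

/-- The number of turns of the toppling game on `G` under optimal play when the player `p` starts
(`true` is Max, `false` is Min) and there are no tokens at the beginning. -/
noncomputable def value (p : Bool) : ℕ := sSup {k | Lasts G k p (fun _ => 0)}

variable {G}

/-- The configuration at which the toppling phase stops does not depend on the order of the
topplings, so the existential quantifiers over `s` in the definition of `Lasts` range over the
unique such configuration (if there is one). -/
theorem stopsAt_unique {c s s' : V → ℕ} (h : StopsAt G c s) (h' : StopsAt G c s') : s = s' := by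
  have hdiamond : ∀ a b d : V → ℕ, Step G a b → Step G a d →
      ∃ t, Relation.ReflGen (Step G) b t ∧ Relation.ReflTransGen (Step G) d t := by
    rintro a b d ⟨v, hv, rfl⟩ ⟨w, hw, rfl⟩
    by_cases hvw : v = w
    · subst hvw
      exact ⟨_, .refl, .refl⟩
    · have h1 : Ready G (topple G a v) w := by
        unfold Ready topple at *
        rw [if_neg (Ne.symm hvw)]
        split_ifs <;> omega
      have h2 : Ready G (topple G a w) v := by
        unfold Ready topple at *
        rw [if_neg hvw]
        split_ifs <;> omega
      have h3 : topple G (topple G a v) w = topple G (topple G a w) v := by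
        funext x
        unfold Ready at hv hw
        unfold topple
        by_cases hxv : x = v
        · subst hxv
          rw [if_neg hvw, if_pos rfl, if_pos rfl, if_neg hvw]
          by_cases hadj : G.Adj w x
          · simp only [if_pos hadj]
            omega
          · simp only [if_neg hadj]
        · by_cases hxw : x = w
          · subst hxw
            rw [if_pos rfl, if_neg hxv, if_neg (Ne.symm hvw), if_pos rfl]
            by_cases hadj : G.Adj v x
            · simp only [if_pos hadj]
              omega
            · simp only [if_neg hadj]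
          · simp only [if_neg hxv, if_neg hxw]
            split_ifs <;> rfl
      exact ⟨_, .single ⟨w, h1, rfl⟩, .single ⟨v, h2, h3⟩⟩
  obtain ⟨t, ht, ht'⟩ := Relation.church_rosser hdiamond h.1 h'.1
  have hfix : ∀ a : V → ℕ, Stable G a → Relation.ReflTransGen (Step G) a t → a = t := by
    intro a ha hat
    rcases Relation.ReflTransGen.cases_head hat with rfl | ⟨b, ⟨v, hv, -⟩, -⟩
    · rfl
    · exact absurd hv (ha v)
  rw [hfix s h.2 ht, hfix s' h'.2 ht']

/-- Script of a legal toppling sequence. -/
lemma script {c s : V → ℕ} (h : Relation.ReflTransGen (Step G) c s) :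
    ∃ f : V → ℤ, ∀ x, (s x : ℤ) = c x - (G.degree x * f x - ∑ y ∈ G.neighborFinset x, f y) := by
  induction h with
  | refl => exact ⟨fun _ => 0, fun x => by simp⟩
  | @tail a b _ hs ih =>
    obtain ⟨f, hf⟩ := ih
    obtain ⟨v, hv, rfl⟩ := hs
    refine ⟨fun x => f x + if x = v then 1 else 0, fun x => ?_⟩
    have h1 := hf x
    rw [Finset.sum_add_distrib, Finset.sum_ite_eq']
    unfold topple
    by_cases hx : x = v
    · subst hx
      have hnot : x ∉ G.neighborFinset x := by simp
      simp only [if_true, hnot, if_false]
      have : ((a x - G.degree x : ℕ) : ℤ) = a x - G.degree x := by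
        have := hv
        unfold Ready at this
        omega
      rw [this, h1]
      ring
    · simp only [if_neg hx]
      by_cases hadj : G.Adj v x
      · have hmem : v ∈ G.neighborFinset x := by
          rw [SimpleGraph.mem_neighborFinset]; exact hadj.symm
        simp only [if_pos hadj, hmem, if_true]
        push_cast
        rw [h1]
        ring
      · have hmem : v ∉ G.neighborFinset x := by
          rw [SimpleGraph.mem_neighborFinset]; exact fun h => hadj h.symm
        simp only [if_neg hadj, hmem, if_false]
        rw [h1]
        ring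

lemma sum_laplacian (f : V → ℤ) :
    ∑ x, (G.degree x * f x - ∑ y ∈ G.neighborFinset x, f y) = 0 := by
  rw [Finset.sum_sub_distrib]
  have h : ∑ x, ∑ y ∈ G.neighborFinset x, f y = ∑ x, (G.degree x : ℤ) * f x := by
    have h1 : ∀ x, ∑ y ∈ G.neighborFinset x, f y = ∑ y, if G.Adj x y then f y else 0 := by
      intro x
      rw [← Finset.sum_filter]
      apply Finset.sum_congr _ (fun _ _ => rfl)
      ext y
      simp
    simp_rw [h1]
    rw [Finset.sum_comm]
    apply Finset.sum_congr rfl
    intro y _
    rw [← Finset.sum_filter, Finset.sum_const]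
    have : (Finset.univ.filter fun x => G.Adj x y).card = G.degree y := by
      rw [← SimpleGraph.card_neighborFinset_eq_degree]
      congr 1
      ext x
      simp [SimpleGraph.adj_comm]
    rw [this]
    simp
  rw [h]
  ring

/-- Toppling does not change the number of tokens. -/
lemma tokens {c s : V → ℕ} (h : Relation.ReflTransGen (Step G) c s) : ∑ x, s x = ∑ x, c x := by
  obtain ⟨f, hf⟩ := script h
  have h1 : (∑ x, (s x : ℤ)) = ∑ x, (c x : ℤ) := by
    rw [Finset.sum_congr rfl (fun x _ => hf x), Finset.sum_sub_distrib, sum_laplacian]
    ring
  exact_mod_cast h1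

lemma tokens_place (c : V → ℕ) (v : V) : ∑ x, place c v x = ∑ x, c x + 1 := by
  unfold place
  have : ∀ x, (if x = v then c x + 1 else c x) = c x + if x = v then 1 else 0 := by
    intro x; split_ifs <;> rfl
  simp_rw [this]
  rw [Finset.sum_add_distrib]
  simp

/-- If `1_v - 1_w` is the Laplacian of an integer function and `v w` is an edge, then that edge is
a bridge. -/
lemma bridge_of_laplacian (hG : G.Connected) {v w : V} (hvw : G.Adj v w) (f : V → ℤ)
    (hf : ∀ x, G.degree x * f x - ∑ y ∈ G.neighborFinset x, f y =
      (if x = v then 1 else 0) - (if x = w then 1 else 0)) : G.IsBridge s(v, w) := by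
  obtain ⟨m, -, hm⟩ := Finset.exists_max_image Finset.univ f ⟨v, Finset.mem_univ v⟩
  have hm' : ∀ x, f x ≤ f m := fun x => hm x (Finset.mem_univ x)
  have hlap : ∀ x, G.degree x * f x - ∑ y ∈ G.neighborFinset x, f y =
      ∑ y ∈ G.neighborFinset x, (f x - f y) := by
    intro x
    rw [Finset.sum_sub_distrib, Finset.sum_const, SimpleGraph.card_neighborFinset_eq_degree]
    simp
  have hnn : ∀ x, f x = f m → ∀ y ∈ G.neighborFinset x, 0 ≤ f x - f y := by
    intro x hx y _
    have := hm' y
    omega
  -- value of the Laplacian at a maximum is nonnegative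
  have hwmax : f w ≠ f m := by
    intro h
    have h1 := hf w
    rw [hlap] at h1
    have h2 := Finset.sum_nonneg (hnn w h)
    rw [h1] at h2
    simp [hvw.ne'] at h2
  have hother : ∀ x, f x = f m → x ≠ v → ∀ y, G.Adj x y → f y = f m := by
    intro x hx hxv y hxy
    have h1 := hf x
    have hxw : x ≠ w := fun h => hwmax (h ▸ hx)
    rw [hlap, if_neg hxv, if_neg hxw, sub_zero] at h1
    have h2 := (Finset.sum_eq_zero_iff_of_nonneg (hnn x hx)).1 h1 y (by simpa using hxy)
    omega
  have hvmax : f v = f m := by
    by_contra hv
    -- the set of maxima is closed under adjacency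
    have hall : ∀ x, f x = f m := by
      intro x
      obtain ⟨p⟩ := hG.preconnected m x
      have : ∀ (a b : V) (p : G.Walk a b), f a = f m → f b = f m := by
        intro a b p
        induction p with
        | nil => exact id
        | cons h q ih =>
          intro ha
          exact ih (hother _ ha (fun hh => hv (hh ▸ ha)) _ h)
      exact this m x p rfl
    exact hv (hall v)
  have hvnbr : ∀ y, G.Adj v y → y ≠ w → f y = f m := by
    intro y hy hyw
    have h1 := hf v
    rw [hlap, if_pos rfl, if_neg hvw.ne, sub_zero] at h1
    have hw' : w ∈ G.neighborFinset v := by simpa using hvw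
    have hy' : y ∈ (G.neighborFinset v).erase w := by
      rw [Finset.mem_erase]
      exact ⟨hyw, by simpa using hy⟩
    rw [← Finset.add_sum_erase _ _ hw'] at h1
    have h3 : 1 ≤ f v - f w := by
      have := hm' w
      have : f w < f m := lt_of_le_of_ne this hwmax
      omega
    have h4 : ∀ z ∈ (G.neighborFinset v).erase w, 0 ≤ f v - f z := fun z hz =>
      hnn v hvmax z (Finset.mem_of_mem_erase hz)
    have h5 := Finset.sum_nonneg h4
    have h6 : ∑ z ∈ (G.neighborFinset v).erase w, (f v - f z) = 0 := by omega
    have h7 := (Finset.sum_eq_zero_iff_of_nonneg h4).1 h6 y hy'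
    omega
  rw [SimpleGraph.isBridge_iff]
  refine ?_
  rintro ⟨p⟩
  have key : ∀ (a b : V) (p : (G \ SimpleGraph.fromEdgeSet {s(v, w)}).Walk a b),
      f a = f m → f b = f m := by
    intro a b p
    induction p with
    | nil => exact id
    | @cons a b _ h q ih =>
      intro ha
      apply ih
      rw [SimpleGraph.sdiff_adj, SimpleGraph.fromEdgeSet_adj] at h
      by_cases hav : a = v
      · subst hav
        refine hvnbr _ h.1 ?_
        rintro rfl
        exact h.2 ⟨rfl, h.1.ne⟩
      · exact hother a ha hav b h.1
  exact hwmax (key v w p hvmax)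

/-! ### The game -/

lemma stable_le {c : V → ℕ} (hc : Stable G c) (x : V) : c x + 1 ≤ G.degree x := by
  have := hc x
  unfold Ready at this
  omega

lemma tokens_le {c : V → ℕ} (hc : Stable G c) : ∑ x, c x ≤ ∑ x, (G.degree x - 1) :=
  Finset.sum_le_sum fun x _ => by have := stable_le hc x; omega

/-- With fewer than `M` tokens one can place a token and stay stable. -/
lemma exists_stable_place {c : V → ℕ} (hc : Stable G c)
    (hlt : ∑ x, c x < ∑ x, (G.degree x - 1)) : ∃ v, Stable G (place c v) := by
  obtain ⟨v, -, hv⟩ := Finset.exists_lt_of_sum_lt hlt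
  refine ⟨v, fun x => ?_⟩
  have := stable_le hc x
  unfold Ready place
  by_cases hx : x = v
  · subst hx
    rw [if_pos rfl]
    omega
  · rw [if_neg hx]
    omega

/-- The crucial position for Min. -/
lemma min_can_end (hG : G.Connected) (hT : ¬ G.IsTree) {c : V → ℕ}
    (hsum : ∑ x, c x + 1 = ∑ x, (G.degree x - 1))
    (hall : ∀ v, ∃ s, StopsAt G (place c v) s) : False := by
  have hex : ∀ v, ∃ f : V → ℤ, ∀ x, G.degree x * f x - ∑ y ∈ G.neighborFinset x, f y =
      (c x : ℤ) + (if x = v then 1 else 0) - (G.degree x - 1) := by
    intro v
    obtain ⟨s, hs, hst⟩ := hall v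
    obtain ⟨f, hf⟩ := script hs
    refine ⟨f, fun x => ?_⟩
    have h1 := tokens hs
    rw [tokens_place, hsum] at h1
    have h2 : ∀ x, s x = G.degree x - 1 := by
      have h3 : ∀ x ∈ Finset.univ, s x ≤ G.degree x - 1 := fun x _ => by
        have := stable_le hst x; omega
      intro x
      exact (Finset.sum_eq_sum_iff_of_le h3).1 h1 x (Finset.mem_univ x)
    have h4 := hf x
    have h5 := stable_le hst x
    have h6 := h2 x
    have h7 : (s x : ℤ) = G.degree x - 1 := by omega
    rw [h7] at h4
    have h8 : (place c v x : ℤ) = c x + if x = v then 1 else 0 := by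
      unfold place
      split_ifs <;> simp
    rw [h8] at h4
    linarith
  apply hT
  refine ⟨hG, ?_⟩
  rw [SimpleGraph.isAcyclic_iff_forall_adj_isBridge]
  intro a b hab
  obtain ⟨f, hf⟩ := hex a
  obtain ⟨g, hg⟩ := hex b
  apply bridge_of_laplacian hG hab (fun x => f x - g x)
  intro x
  have h1 := hf x
  have h2 := hg x
  rw [Finset.sum_sub_distrib]
  linarith

lemma lasts_step (hG : G.Connected) (hT : ¬ G.IsTree) : ∀ k : ℕ,
    (∀ c : V → ℕ, Stable G c → ∑ x, c x < ∑ x, (G.degree x - 1) → Odd k →
      Lasts G k true c → Lasts G (k + 1) true c) ∧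
    (∀ c : V → ℕ, Stable G c → Even k → Lasts G k false c → Lasts G (k + 1) false c) := by
  intro k
  induction k with
  | zero =>
    constructor
    · intro c _ _ h
      exact absurd h (by decide)
    · intro c _ _ _ v
      exact Or.inl rfl
  | succ k ih =>
    constructor
    · intro c hc hlt hodd h
      obtain ⟨v, hv⟩ := h
      rcases hv with rfl | ⟨s, hs, hl⟩
      · obtain ⟨v, hv⟩ := exists_stable_place hc hlt
        exact ⟨v, Or.inr ⟨_, ⟨.refl, hv⟩, fun _ => Or.inl rfl⟩⟩
      · refine ⟨v, Or.inr ⟨s, hs, ih.2 s hs.2 ?_ hl⟩⟩
        rw [Nat.odd_add_one] at hodd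
        exact Nat.not_odd_iff_even.1 hodd
    · intro c hc heven h v
      have hk : Odd k := by
        rw [Nat.even_add_one] at heven
        exact Nat.not_even_iff_odd.1 heven
      have hk0 : k ≠ 0 := by
        rintro rfl
        exact absurd hk (by decide)
      have h' : ∀ v, ∃ s, StopsAt G (place c v) s ∧ Lasts G k true s := by
        intro v
        rcases h v with h0 | h1
        · exact absurd h0 hk0
        · exact h1
      obtain ⟨s, hs, hl⟩ := h' v
      refine Or.inr ⟨s, hs, ih.1 s hs.2 ?_ hk hl⟩
      have h1 := tokens hs.1
      rw [tokens_place] at h1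
      have h2 := tokens_le hs.2
      rcases lt_or_eq_of_le h2 with h3 | h3
      · exact h3
      · exfalso
        exact min_can_end hG hT (c := c) (by omega) fun v => by
          obtain ⟨s, hs, _⟩ := h' v
          exact ⟨s, hs⟩

lemma lasts_bound (hG : G.Connected) : ∀ (k : ℕ) (p : Bool) (c : V → ℕ), Stable G c →
    Lasts G k p c → k + ∑ x, c x ≤ ∑ x, (G.degree x - 1) + 1 := by
  intro k
  induction k with
  | zero =>
    intro p c hc _
    have := tokens_le hc
    omega
  | succ k ih =>
    intro p c hc h
    have := tokens_le hc
    by_cases hk : k = 0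
    · subst hk
      omega
    · have hex : ∃ v s q, StopsAt G (place c v) s ∧ Lasts G k q s := by
        cases p with
        | true =>
          obtain ⟨v, h0 | ⟨s, hs, hl⟩⟩ := h
          · exact absurd h0 hk
          · exact ⟨v, s, false, hs, hl⟩
        | false =>
          obtain ⟨v⟩ := hG.nonempty
          rcases h v with h0 | ⟨s, hs, hl⟩
          · exact absurd h0 hk
          · exact ⟨v, s, true, hs, hl⟩
      obtain ⟨v, s, q, hs, hl⟩ := hex
      have h1 := ih q s hs.2 hl
      have h2 := tokens hs.1
      rw [tokens_place] at h2
      omega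

/-- On a connected graph that is not a tree all degrees are positive and some degree is at
least two. -/
lemma degrees (hG : G.Connected) (hT : ¬ G.IsTree) :
    (∀ v, 0 < G.degree v) ∧ 0 < ∑ x, (G.degree x - 1) := by
  have hnt : Nontrivial V := by
    by_contra h
    rw [not_nontrivial_iff_subsingleton] at h
    have := hG.nonempty
    exact hT SimpleGraph.IsTree.of_subsingleton
  have hpos : ∀ v, 0 < G.degree v := fun v => hG.preconnected.degree_pos_of_nontrivial v
  refine ⟨hpos, ?_⟩
  by_contra h0
  have h1 : ∑ x, (G.degree x - 1) = 0 := by omega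
  rw [Finset.sum_eq_zero_iff] at h1
  apply hT
  refine ⟨hG, ?_⟩
  rw [SimpleGraph.isAcyclic_iff_forall_adj_isBridge]
  intro a b hab
  rw [SimpleGraph.isBridge_iff]
  rintro ⟨p⟩
  have hdeg : G.degree a ≤ 1 := by have := h1 a (Finset.mem_univ a); omega
  cases p with
  | nil => exact hab.ne rfl
  | @cons _ y _ h q =>
    rw [SimpleGraph.deleteEdges_adj] at h
    have hy : y = b := by
      rw [← SimpleGraph.card_neighborFinset_eq_degree, Finset.card_le_one] at hdeg
      exact hdeg y (by simpa using h.1) b (by simpa using hab)
    subst hy
    exact h.2 rfl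

lemma value_mem (hG : G.Connected) (hT : ¬ G.IsTree) (p : Bool) :
    Lasts G (value G p) p (fun _ => 0) ∧ ¬ Lasts G (value G p + 1) p (fun _ => 0) := by
  have hst : Stable G (fun _ => 0 : V → ℕ) := fun v hv => by
    have := (degrees hG hT).1 v
    unfold Ready at hv
    simp only at hv
    omega
  have hbdd : BddAbove {k | Lasts G k p (fun _ => 0 : V → ℕ)} := by
    refine ⟨∑ x, (G.degree x - 1) + 1, fun k hk => ?_⟩
    have := lasts_bound hG k p _ hst hk
    omega
  have hne : {k | Lasts G k p (fun _ => 0 : V → ℕ)}.Nonempty :=
    ⟨0, by cases p <;> exact True.intro⟩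
  refine ⟨Nat.sSup_mem hne hbdd, fun h => ?_⟩
  have := le_csSup hbdd h
  unfold value at this
  omega

/-- In every connected graph that is not a tree the Max-start value of the toppling game is even
and the Min-start value is odd. -/
lemma parity (hG : G.Connected) (hT : ¬ G.IsTree) :
    Even (value G true) ∧ Odd (value G false) := by
  have hst : Stable G (fun _ => 0 : V → ℕ) := fun v hv => by
    have := (degrees hG hT).1 v
    unfold Ready at hv
    simp only at hv
    omega
  constructor
  · by_contra h
    rw [Nat.not_even_iff_odd] at h
    obtain ⟨h1, h2⟩ := value_mem hG hT true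
    exact h2 ((lasts_step hG hT _).1 _ hst (by simpa using (degrees hG hT).2) h h1)
  · by_contra h
    rw [Nat.not_odd_iff_even] at h
    obtain ⟨h1, h2⟩ := value_mem hG hT false
    exact h2 ((lasts_step hG hT _).2 _ hst h h1)

/-- For every finite connected graph that is not a tree, the number of turns of the toppling game
under optimal play depends on who starts. -/
theorem result (V : Type) [Fintype V] [DecidableEq V] (G : SimpleGraph V) [DecidableRel G.Adj]
    (hG : G.Connected) (hT : ¬ G.IsTree) : value G true ≠ value G false := by
  intro h
  obtain ⟨h1, h2⟩ := parity hG hT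
  rw [h] at h1
  exact (Nat.not_even_iff_odd.2 h2) h1

end Pool.Agent.Results.MP_424b19_co.TopplingParity
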